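import Pool.Agent.helper78.NLS.Spec

/-! nls:SHK: the supports of the errors shrink to `K`. -/

set_option autoImplicit false

open Complex Metric Set Filter Topology MeasureTheory MPS
open Pool.Agent.helper98.ILF Pool.Agent.helper16.Multibrot

noncomputable section

namespace NLS

theorem SHK : SHK_stmt := by
  intro n c K hn hc hK hne hK4 hinv d hd
  have hfar : ∀ z : ℂ, 4 < ‖z‖ → 6 < ‖z ^ n + c‖ := by
    intro z hz
    have h1 : ‖z‖ ^ 2 ≤ ‖z‖ ^ n := pow_le_pow_right₀ (by linarith) hn
    have h2 : ‖z ^ n‖ - ‖-c‖ ≤ ‖z ^ n - -c‖ := norm_sub_norm_le _ _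
    rw [norm_neg, norm_pow, sub_neg_eq_add] at h2
    nlinarith
  have hcont : Continuous (fun z : ℂ => infDist (z ^ n + c) K) :=
    (continuous_infDist_pt K).comp ((continuous_pow n).add continuous_const)
  set A : Set ℂ := closedBall 0 4 ∩ {z | d ≤ infDist z K} with hA
  have hAc : IsCompact A :=
    (isCompact_closedBall (0 : ℂ) 4).inter_right (isClosed_le continuous_const (continuous_infDist_pt K))
  have hpos : ∀ z ∈ A, 0 < infDist (z ^ n + c) K := by
    intro z hz
    rcases (infDist_nonneg (x := z ^ n + c) (s := K)).lt_or_eq with h | h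
    · exact h
    · exfalso
      have h1 : z ^ n + c ∈ K := (hK.mem_iff_infDist_zero hne).mpr h.symm
      have h2 : infDist z K = 0 := (hK.mem_iff_infDist_zero hne).mp ((hinv z).mpr h1)
      have h3 : d ≤ infDist z K := hz.2
      linarith
  have hmain : ∃ e > (0 : ℝ), e ≤ 1 ∧ ∀ z ∈ A, e < infDist (z ^ n + c) K := by
    by_cases hAe : A.Nonempty
    · obtain ⟨w, hw, hmin⟩ := hAc.exists_isMinOn hAe hcont.continuousOn
      refine ⟨min 1 (infDist (w ^ n + c) K / 2), ?_, min_le_left _ _, ?_⟩
      · have := hpos w hw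
        positivity
      · intro z hz
        have h1 : infDist (w ^ n + c) K ≤ infDist (z ^ n + c) K := hmin hz
        have h2 := hpos w hw
        have h3 := min_le_right 1 (infDist (w ^ n + c) K / 2)
        linarith
    · refine ⟨1, one_pos, le_refl 1, ?_⟩
      intro z hz
      exact absurd ⟨z, hz⟩ hAe
  obtain ⟨e, he, he1, hmin⟩ := hmain
  refine ⟨e, he, ?_⟩
  intro z hz
  by_contra hcon
  push Not at hcon
  have h4 : ¬ 4 < ‖z‖ := by
    intro h4
    have h6 := hfar z h4
    have h7 : infDist (z ^ n + c) K < 2 := by linarith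
    obtain ⟨y, hy, hyd⟩ := (infDist_lt_iff hne).mp h7
    have h8 := mem_ball_zero_iff.mp (hK4 hy)
    rw [dist_eq_norm] at hyd
    have h9 : ‖z ^ n + c‖ ≤ ‖z ^ n + c - y‖ + ‖y‖ := by
      have := norm_add_le (z ^ n + c - y) y
      rwa [sub_add_cancel] at this
    linarith
  push Not at h4
  have h5 : z ∈ A := ⟨by rw [mem_closedBall_zero_iff]; exact h4, hcon.le⟩
  have := hmin z h5
  linarith

end NLS
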